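import Mathlib

set_option autoImplicit false

/-!
# MP_514f39_an: permuted expansions and Schauder bases

In a separable Hilbert space (real or complex) there is a minimal sequence `x` such that every
vector has a unique scalar sequence for which some rearrangement of the corresponding series
converges to the vector, while no permutation of `x` is a Schauder basis.

The space consists of all square summable families `v` on `ℕ ⊕ ℕ` with
`v (inr k) = ∑ v (inl n)` over the block `k² ≤ n < (k+1)²`, and `x n` is the sum of the unit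
vectors at `inl n` and at `inr (sqrt n)`.
-/

open Filter Topology Finset

namespace Pool.Agent.Results.MP_514f39_an.PermutedExpansions

section Defs

variable (𝕜 : Type) [RCLike 𝕜] {E : Type} [NormedAddCommGroup E] [NormedSpace 𝕜 E]

/-- `x` is a Schauder basis: every vector has exactly one norm convergent expansion. -/
def IsSchauderBasis (x : ℕ → E) : Prop :=
  ∀ v : E, ∃! a : ℕ → 𝕜, Tendsto (fun N => ∑ i ∈ range N, a i • x i) atTop (𝓝 v)

/-- `x` is minimal: no member lies in the closed linear span of the others. -/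
def IsMinimalSeq (x : ℕ → E) : Prop :=
  ∀ m : ℕ, x m ∉ (Submodule.span 𝕜 (x '' {n | n ≠ m})).topologicalClosure

/-- Property (U): every vector `v` has a scalar sequence `a` such that some rearrangement of
`∑ a n • x n` converges to `v`, and the scalar sequence is unique (whatever rearrangement). -/
def HasPropertyU (x : ℕ → E) : Prop :=
  ∀ v : E, ∃ a : ℕ → 𝕜,
    (∃ σ : Equiv.Perm ℕ,
      Tendsto (fun N => ∑ i ∈ range N, a (σ i) • x (σ i)) atTop (𝓝 v)) ∧
    ∀ (b : ℕ → 𝕜) (π : Equiv.Perm ℕ),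
      Tendsto (fun N => ∑ i ∈ range N, b (π i) • x (π i)) atTop (𝓝 v) → b = a

end Defs

section General

variable {𝕜 : Type} [RCLike 𝕜] {E : Type} [NormedAddCommGroup E] [NormedSpace 𝕜 E]

theorem coef_eq {x : ℕ → E} {f : ℕ → StrongDual 𝕜 E}
    (hf : ∀ m n, f m (x n) = if m = n then 1 else 0) (b : ℕ → 𝕜) (π : Equiv.Perm ℕ) {v : E}
    (h : Tendsto (fun N => ∑ i ∈ range N, b (π i) • x (π i)) atTop (𝓝 v)) (m : ℕ) :
    b m = f m v := by
  have h1 : Tendsto (fun N => f m (∑ i ∈ range N, b (π i) • x (π i))) atTop (𝓝 (f m v)) :=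
    ((f m).continuous.tendsto v).comp h
  have h2 : Tendsto (fun N => f m (∑ i ∈ range N, b (π i) • x (π i))) atTop (𝓝 (b m)) := by
    apply tendsto_const_nhds.congr'
    filter_upwards [eventually_gt_atTop (π.symm m)] with N hN
    rw [map_sum, Finset.sum_eq_single_of_mem (π.symm m) (mem_range.2 hN)]
    · rw [map_smul, hf, Equiv.apply_symm_apply, if_pos rfl, smul_eq_mul, mul_one]
    · intro i _ hi
      rw [map_smul, hf, if_neg, smul_zero]
      rintro rfl
      exact hi (by rw [Equiv.symm_apply_apply])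
  exact tendsto_nhds_unique h2 h1

theorem minimal_of_biorth {x : ℕ → E} {f : ℕ → StrongDual 𝕜 E}
    (hf : ∀ m n, f m (x n) = if m = n then 1 else 0) : IsMinimalSeq 𝕜 x := by
  intro m hm
  have h1 : (Submodule.span 𝕜 (x '' {n | n ≠ m})).topologicalClosure ≤ (f m).ker := by
    apply Submodule.topologicalClosure_minimal
    · rw [Submodule.span_le]
      rintro _ ⟨n, hn, rfl⟩
      have hn' : m ≠ n := fun h => hn h.symm
      change f m (x n) = 0
      rw [hf, if_neg hn']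
    · exact (f m).isClosed_ker
  have h2 : f m (x m) = 0 := h1 hm
  rw [hf, if_pos rfl] at h2
  exact one_ne_zero h2

theorem basis_bound [CompleteSpace E] {x : ℕ → E} {f : ℕ → StrongDual 𝕜 E}
    (hf : ∀ m n, f m (x n) = if m = n then 1 else 0) (τ : Equiv.Perm ℕ)
    (hb : IsSchauderBasis 𝕜 (fun n => x (τ n))) :
    ∃ C : ℝ, ∀ (N : ℕ) (v : E), ‖∑ i ∈ range N, f (τ i) v • x (τ i)‖ ≤ C * ‖v‖ := by
  let S : ℕ → (E →L[𝕜] E) := fun N =>
    ∑ i ∈ range N, (f (τ i)).smulRight (x (τ i))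
  have hS : ∀ N v, S N v = ∑ i ∈ range N, f (τ i) v • x (τ i) := by
    intro N v
    simp [S]
  have hpt : ∀ v, ∃ C, ∀ N, ‖S N v‖ ≤ C := by
    intro v
    obtain ⟨a, ha, -⟩ := hb v
    have h1 : ∀ i, a i = f (τ i) v := by
      intro i
      have h2 := coef_eq hf (fun n => a (τ.symm n)) τ (v := v) (by
        simpa only [Equiv.symm_apply_apply] using ha) (τ i)
      simpa only [Equiv.symm_apply_apply] using h2
    have h2 : Tendsto (fun N => S N v) atTop (𝓝 v) := by
      refine ha.congr (fun N => ?_)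
      rw [hS]
      exact Finset.sum_congr rfl fun i _ => by rw [h1]
    obtain ⟨C, hC⟩ := (Metric.isBounded_range_of_tendsto _ h2).exists_norm_le
    exact ⟨C, fun N => hC _ ⟨N, rfl⟩⟩
  obtain ⟨C, hC⟩ := banach_steinhaus hpt
  refine ⟨C, fun N v => ?_⟩
  rw [← hS]
  exact (S N).le_of_opNorm_le (hC N) v

/-- The greedy rearrangement: if `w + ∑ c = 0`, the terms can be ordered so that all partial sums
starting from `w` are bounded by `(‖w‖² + ∑ ‖c‖²)^(1/2)`. -/
theorem greedy (c : ℕ → 𝕜) : ∀ (m : ℕ) (s : Finset ℕ), s.card = m → ∀ w : 𝕜,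
    w + ∑ i ∈ s, c i = 0 →
    ∃ φ : ℕ → ℕ, (∀ j < m, φ j ∈ s) ∧ (∀ i < m, ∀ j < m, φ i = φ j → i = j) ∧
      ∀ j ≤ m, ‖w + ∑ i ∈ range j, c (φ i)‖ ^ 2 ≤ ‖w‖ ^ 2 + ∑ i ∈ s, ‖c i‖ ^ 2 := by
  intro m
  induction m with
  | zero =>
    intro s hs w hw
    refine ⟨id, fun j hj => absurd hj (Nat.not_lt_zero _),
      fun i hi => absurd hi (Nat.not_lt_zero _), fun j hj => ?_⟩
    obtain rfl : j = 0 := Nat.le_zero.1 hj
    rw [Finset.card_eq_zero.1 hs]
    simp
  | succ m ih =>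
    intro s hs w hw
    have hne : s.Nonempty := by
      rw [← Finset.card_pos, hs]
      exact Nat.succ_pos m
    have hsum : ∑ i ∈ s, RCLike.re (inner 𝕜 w (c i)) ≤ 0 := by
      rw [← map_sum, ← inner_sum]
      have h1 : ∑ i ∈ s, c i = -w := by
        rw [eq_neg_iff_add_eq_zero, add_comm]
        exact hw
      rw [h1, inner_neg_right, map_neg, neg_nonpos]
      exact inner_self_nonneg
    obtain ⟨i0, hi0, hneg⟩ : ∃ i ∈ s, RCLike.re (inner 𝕜 w (c i)) ≤ 0 := by
      by_contra hcon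
      push Not at hcon
      exact absurd hsum (not_le.2 (Finset.sum_pos hcon hne))
    have hw2 : ‖w + c i0‖ ^ 2 ≤ ‖w‖ ^ 2 + ‖c i0‖ ^ 2 := by
      rw [@norm_add_sq 𝕜]
      linarith
    have hcard : (s.erase i0).card = m := by
      rw [Finset.card_erase_of_mem hi0, hs]
      rfl
    have hw' : (w + c i0) + ∑ i ∈ s.erase i0, c i = 0 := by
      rw [add_assoc, Finset.add_sum_erase s c hi0]
      exact hw
    obtain ⟨φ, h1, h2, h3⟩ := ih (s.erase i0) hcard (w + c i0) hw'
    refine ⟨fun j => if j = 0 then i0 else φ (j - 1), ?_, ?_, ?_⟩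
    · intro j hj
      rcases Nat.eq_zero_or_pos j with rfl | hj0
      · simpa using hi0
      · simp only [if_neg hj0.ne']
        exact Finset.mem_of_mem_erase (h1 (j - 1) (by omega))
    · intro i hi j hj hij
      rcases Nat.eq_zero_or_pos i with rfl | hi1
      · rcases Nat.eq_zero_or_pos j with rfl | hj1
        · rfl
        · exfalso
          simp only [if_true, if_neg hj1.ne'] at hij
          have := h1 (j - 1) (by omega)
          rw [← hij] at this
          exact Finset.notMem_erase i0 s this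
      · rcases Nat.eq_zero_or_pos j with rfl | hj1
        · exfalso
          simp only [if_true, if_neg hi1.ne'] at hij
          have := h1 (i - 1) (by omega)
          rw [hij] at this
          exact Finset.notMem_erase i0 s this
        · simp only [if_neg hi1.ne', if_neg hj1.ne'] at hij
          have := h2 (i - 1) (by omega) (j - 1) (by omega) hij
          omega
    · intro j hj
      have hse : ∑ i ∈ s, ‖c i‖ ^ 2 = ‖c i0‖ ^ 2 + ∑ i ∈ s.erase i0, ‖c i‖ ^ 2 :=
        (Finset.add_sum_erase s (fun i => ‖c i‖ ^ 2) hi0).symm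
      rcases Nat.eq_zero_or_pos j with rfl | hj1
      · simp only [Finset.range_zero, Finset.sum_empty, add_zero]
        have : 0 ≤ ∑ i ∈ s, ‖c i‖ ^ 2 := Finset.sum_nonneg fun _ _ => sq_nonneg _
        linarith
      · obtain ⟨j', rfl⟩ : ∃ j', j = j' + 1 := ⟨j - 1, by omega⟩
        rw [Finset.sum_range_succ']
        have h4 := h3 j' (by omega)
        have h5 : w + (∑ k ∈ range j', c (if k + 1 = 0 then i0 else φ (k + 1 - 1)) +
            c (if 0 = 0 then i0 else φ (0 - 1))) = w + c i0 + ∑ i ∈ range j', c (φ i) := by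
          simp only [Nat.succ_ne_zero, if_false, if_true, Nat.add_sub_cancel]
          ring
        rw [h5, hse]
        linarith

end General

/-! ### The space -/

section Space

variable (𝕜 : Type) [RCLike 𝕜]

/-- The ambient Hilbert space. -/
abbrev H : Type := lp (fun _ : ℕ ⊕ ℕ => 𝕜) 2

/-- The `k`-th block of indices: `k² ≤ n < (k+1)²`. -/
def block (k : ℕ) : Finset ℕ := (range ((k + 1) ^ 2)).filter (fun n => Nat.sqrt n = k)

theorem mem_block {k n : ℕ} : n ∈ block k ↔ Nat.sqrt n = k := by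
  unfold block
  rw [mem_filter, mem_range]
  refine ⟨fun h => h.2, fun h => ⟨?_, h⟩⟩
  rw [← h]
  exact Nat.lt_succ_sqrt' n

theorem block_eq_Ico (k : ℕ) : block k = Finset.Ico (k ^ 2) ((k + 1) ^ 2) := by
  ext n
  rw [mem_block, Finset.mem_Ico]
  constructor
  · rintro rfl
    exact ⟨Nat.sqrt_le' n, Nat.lt_succ_sqrt' n⟩
  · rintro ⟨h1, h2⟩
    have h3 := Nat.le_sqrt'.2 h1
    have h4 := Nat.sqrt_lt'.2 h2
    omega

theorem card_block (k : ℕ) : (block k).card = 2 * k + 1 := by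
  rw [block_eq_Ico, Nat.card_Ico]
  have : (k + 1) ^ 2 = k ^ 2 + (2 * k + 1) := by ring
  omega

/-- The subspace of the families whose right coordinates are the block sums of the left
coordinates. -/
def EE : Submodule 𝕜 (H 𝕜) where
  carrier := {v | ∀ k, v (Sum.inr k) = ∑ n ∈ block k, v (Sum.inl n)}
  add_mem' := by
    intro v w hv hw k
    simp only [lp.coeFn_add, Pi.add_apply]
    rw [hv k, hw k, Finset.sum_add_distrib]
  zero_mem' := by
    intro k
    simp
  smul_mem' := by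
    intro t v hv k
    simp only [lp.coeFn_smul, Pi.smul_apply]
    rw [hv k, Finset.smul_sum]

theorem mem_EE {v : H 𝕜} : v ∈ EE 𝕜 ↔ ∀ k, v (Sum.inr k) = ∑ n ∈ block k, v (Sum.inl n) :=
  Iff.rfl

/-- Coordinate evaluation. -/
noncomputable def ev (i : ℕ ⊕ ℕ) : H 𝕜 →L[𝕜] 𝕜 :=
  LinearMap.mkContinuous
    { toFun := fun v => v i
      map_add' := fun v w => by simp
      map_smul' := fun t v => by simp } 1 (fun v => by
        rw [one_mul]
        exact lp.norm_apply_le_norm (by norm_num) v i)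

theorem ev_apply (i : ℕ ⊕ ℕ) (v : H 𝕜) : ev 𝕜 i v = v i := rfl

theorem isClosed_EE : IsClosed (EE 𝕜 : Set (H 𝕜)) := by
  have : (EE 𝕜 : Set (H 𝕜)) =
      ⋂ k, {v | ev 𝕜 (Sum.inr k) v = ∑ n ∈ block k, ev 𝕜 (Sum.inl n) v} := by
    ext v
    simp only [SetLike.mem_coe, mem_EE, Set.mem_iInter, Set.mem_ofPred_eq, ev_apply]
  rw [this]
  apply isClosed_iInter
  intro k
  apply isClosed_eq
  · fun_prop
  · fun_prop

/-- Unit vectors of the ambient space. -/
noncomputable def uu (i : ℕ ⊕ ℕ) : H 𝕜 := lp.single 2 i (1 : 𝕜)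

theorem uu_apply (i j : ℕ ⊕ ℕ) : uu 𝕜 i j = if j = i then 1 else 0 := by
  unfold uu
  rw [lp.single_apply]
  by_cases h : j = i
  · subst h
    simp
  · rw [Pi.single_eq_of_ne h, if_neg h]

theorem smul_uu (c : 𝕜) (i : ℕ ⊕ ℕ) : c • uu 𝕜 i = lp.single 2 i c := by
  ext j
  rw [lp.coeFn_smul, Pi.smul_apply, uu_apply, lp.single_apply]
  by_cases h : j = i
  · subst h
    simp
  · rw [Pi.single_eq_of_ne h, if_neg h, smul_zero]

theorem norm_uu (i : ℕ ⊕ ℕ) : ‖uu 𝕜 i‖ = 1 := by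
  unfold uu
  rw [lp.norm_single (by norm_num)]
  exact norm_one

theorem norm_sum_uu_sq (g : ℕ ⊕ ℕ → 𝕜) (s : Finset (ℕ ⊕ ℕ)) :
    ‖∑ i ∈ s, g i • uu 𝕜 i‖ ^ 2 = ∑ i ∈ s, ‖g i‖ ^ 2 := by
  have h := lp.norm_sum_single (E := fun _ : ℕ ⊕ ℕ => 𝕜) (p := 2) (by norm_num) g s
  simp only [ENNReal.toReal_ofNat, Real.rpow_ofNat] at h
  simp only [smul_uu]
  exact h

theorem norm_sum_inl_sq (g : ℕ → 𝕜) (s : Finset ℕ) :
    ‖∑ n ∈ s, g n • uu 𝕜 (Sum.inl n)‖ ^ 2 = ∑ n ∈ s, ‖g n‖ ^ 2 := by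
  have h := norm_sum_uu_sq 𝕜 (Sum.elim g g) (s.map Function.Embedding.inl)
  simpa using h

theorem xx_mem (n : ℕ) : uu 𝕜 (Sum.inl n) + uu 𝕜 (Sum.inr (Nat.sqrt n)) ∈ EE 𝕜 := by
  intro k
  simp only [lp.coeFn_add, Pi.add_apply, uu_apply, Sum.inr.injEq, Sum.inl.injEq, reduceCtorEq,
    if_false, zero_add, add_zero]
  rw [Finset.sum_ite_eq']
  by_cases h : k = Nat.sqrt n
  · rw [if_pos h, if_pos (mem_block.2 h.symm)]
  · rw [if_neg h, if_neg (fun h' => h (mem_block.1 h').symm)]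

/-- The sequence. -/
noncomputable def xx (n : ℕ) : EE 𝕜 :=
  ⟨uu 𝕜 (Sum.inl n) + uu 𝕜 (Sum.inr (Nat.sqrt n)), xx_mem 𝕜 n⟩

theorem coe_xx (n : ℕ) : (xx 𝕜 n : H 𝕜) = uu 𝕜 (Sum.inl n) + uu 𝕜 (Sum.inr (Nat.sqrt n)) := rfl

/-- The biorthogonal functionals. -/
noncomputable def ff (n : ℕ) : StrongDual 𝕜 (EE 𝕜) := (ev 𝕜 (Sum.inl n)).comp (EE 𝕜).subtypeL

theorem ff_apply (n : ℕ) (v : EE 𝕜) : ff 𝕜 n v = (v : H 𝕜) (Sum.inl n) := rfl

theorem ff_xx (m n : ℕ) : ff 𝕜 m (xx 𝕜 n) = if m = n then 1 else 0 := by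
  rw [ff_apply, coe_xx]
  simp only [lp.coeFn_add, Pi.add_apply, uu_apply, Sum.inl.injEq, reduceCtorEq, if_false,
    add_zero]

/-- The sum over a subset of a block. -/
theorem coe_sum_block (c : ℕ → 𝕜) {k : ℕ} {A : Finset ℕ} (hA : A ⊆ block k) :
    ((∑ n ∈ A, c n • xx 𝕜 n : EE 𝕜) : H 𝕜) =
      ∑ n ∈ A, c n • uu 𝕜 (Sum.inl n) + (∑ n ∈ A, c n) • uu 𝕜 (Sum.inr k) := by
  rw [Submodule.coe_sum, Finset.sum_smul, ← Finset.sum_add_distrib]
  apply Finset.sum_congr rfl
  intro n hn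
  rw [Submodule.coe_smul, coe_xx, smul_add, mem_block.1 (hA hn)]

theorem norm_sum_block_le (c : ℕ → 𝕜) {k : ℕ} {A : Finset ℕ} (hA : A ⊆ block k) :
    ‖∑ n ∈ A, c n • xx 𝕜 n‖ ≤ √(∑ n ∈ A, ‖c n‖ ^ 2) + ‖∑ n ∈ A, c n‖ := by
  have h0 : ‖∑ n ∈ A, c n • xx 𝕜 n‖ = ‖((∑ n ∈ A, c n • xx 𝕜 n : EE 𝕜) : H 𝕜)‖ := rfl
  rw [h0, coe_sum_block 𝕜 c hA]
  refine (norm_add_le _ _).trans ?_
  rw [norm_smul, norm_uu, mul_one, ← norm_sum_inl_sq, Real.sqrt_sq (norm_nonneg _)]

/-- Partial sums in the natural order at squares converge. -/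
theorem tendsto_squares (v : EE 𝕜) :
    Tendsto (fun k : ℕ => ∑ n ∈ range (k ^ 2), ff 𝕜 n v • xx 𝕜 n) atTop (𝓝 v) := by
  rw [tendsto_subtype_rng]
  have h1 := lp.hasSum_single (E := fun _ : ℕ ⊕ ℕ => 𝕜) (p := 2) (by norm_num) (v : H 𝕜)
  have h2 : Tendsto (fun k : ℕ => (range (k ^ 2)).disjSum (range k)) atTop atTop := by
    apply tendsto_atTop_finset_of_monotone
    · intro k l hkl
      apply Finset.disjSum_mono
      · exact Finset.range_subset_range.2 (Nat.pow_le_pow_left hkl 2)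
      · exact Finset.range_subset_range.2 hkl
    · rintro (n | n)
      · refine ⟨n + 1, ?_⟩
        rw [Finset.inl_mem_disjSum, mem_range]
        nlinarith
      · exact ⟨n + 1, by rw [Finset.inr_mem_disjSum, mem_range]; omega⟩
  have h3 := Tendsto.comp h1 (by simpa using h2)
  refine h3.congr (fun k => ?_)
  simp only [Function.comp_apply]
  rw [Finset.sum_disjSum, Submodule.coe_sum]
  simp only [Submodule.coe_smul, coe_xx, smul_add, Finset.sum_add_distrib, ff_apply, smul_uu]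
  congr 1
  have h4 : ∀ n ∈ range (k ^ 2), Nat.sqrt n ∈ range k := by
    intro n hn
    rw [mem_range] at hn ⊢
    exact Nat.sqrt_lt'.2 hn
  rw [← Finset.sum_fiberwise_of_maps_to h4]
  apply Finset.sum_congr rfl
  intro j hj
  have h5 : (range (k ^ 2)).filter (fun n => Nat.sqrt n = j) = block j := by
    ext n
    rw [mem_filter, mem_block, mem_range]
    refine ⟨fun h => h.2, fun h => ⟨?_, h⟩⟩
    rw [← Nat.sqrt_lt', h]
    exact mem_range.1 hj
  rw [h5]
  have h6 : (v : H 𝕜) (Sum.inr j) = ∑ n ∈ block j, (v : H 𝕜) (Sum.inl n) := v.2 j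
  rw [h6, ← smul_uu, Finset.sum_smul]
  apply Finset.sum_congr rfl
  intro n hn
  rw [← smul_uu, mem_block.1 hn]

theorem sqrt_perm_mem {σ : ℕ → ℕ} (hσ : ∀ n, Nat.sqrt (σ n) = Nat.sqrt n) (k n : ℕ) :
    n ∈ range (k ^ 2) ↔ σ n ∈ range (k ^ 2) := by
  rw [mem_range, mem_range, ← Nat.sqrt_lt', ← Nat.sqrt_lt', hσ]

/-- Every vector has a rearranged expansion. -/
theorem exists_perm (v : EE 𝕜) :
    ∃ σ : Equiv.Perm ℕ,
      Tendsto (fun N => ∑ i ∈ range N, ff 𝕜 (σ i) v • xx 𝕜 (σ i)) atTop (𝓝 v) := by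
  classical
  have hg : ∀ k : ℕ, ∃ φ : ℕ → ℕ, (∀ j < 2 * k + 1, φ j ∈ block k) ∧
      (∀ i < 2 * k + 1, ∀ j < 2 * k + 1, φ i = φ j → i = j) ∧
      ∀ j ≤ 2 * k + 1, ‖-(∑ n ∈ block k, ff 𝕜 n v) + ∑ i ∈ range j, ff 𝕜 (φ i) v‖ ^ 2 ≤
        ‖-(∑ n ∈ block k, ff 𝕜 n v)‖ ^ 2 + ∑ n ∈ block k, ‖ff 𝕜 n v‖ ^ 2 := by
    intro k
    exact greedy (fun n => ff 𝕜 n v) (2 * k + 1) (block k) (card_block k) _ (neg_add_cancel _)
  choose φ h1 h2 h3 using hg
  have hidx : ∀ n, n - (Nat.sqrt n) ^ 2 < 2 * Nat.sqrt n + 1 := by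
    intro n
    have := Nat.lt_succ_sqrt' n
    have h4 : (Nat.sqrt n).succ ^ 2 = (Nat.sqrt n) ^ 2 + (2 * Nat.sqrt n + 1) := by
      rw [Nat.succ_eq_add_one]; ring
    have h5 := Nat.sqrt_le' n
    omega
  let σ0 : ℕ → ℕ := fun n => φ (Nat.sqrt n) (n - (Nat.sqrt n) ^ 2)
  have hσ0 : ∀ n, Nat.sqrt (σ0 n) = Nat.sqrt n := fun n => mem_block.1 (h1 _ _ (hidx n))
  have hinj : Function.Injective σ0 := by
    intro m n hmn
    have hs : Nat.sqrt m = Nat.sqrt n := by rw [← hσ0 m, ← hσ0 n, hmn]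
    have h5 : φ (Nat.sqrt n) (m - (Nat.sqrt n) ^ 2) = φ (Nat.sqrt n) (n - (Nat.sqrt n) ^ 2) := by
      have : σ0 m = φ (Nat.sqrt n) (m - (Nat.sqrt n) ^ 2) := by
        simp only [σ0, hs]
      rw [← this]
      exact hmn
    have h6 := h2 _ _ (by rw [← hs]; exact hidx m) _ (hidx n) h5
    have h7 := Nat.sqrt_le' m
    have h8 := Nat.sqrt_le' n
    rw [hs] at h7
    omega
  have hsurj : Function.Surjective σ0 := by
    intro m
    set k := Nat.sqrt m with hk
    have himg : (range (2 * k + 1)).image (φ k) = block k := by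
      apply Finset.eq_of_subset_of_card_le
      · intro n hn
        obtain ⟨j, hj, rfl⟩ := Finset.mem_image.1 hn
        exact h1 k j (mem_range.1 hj)
      · rw [Finset.card_image_of_injOn, card_range, card_block]
        intro i hi j hj hij
        exact h2 k i (by simpa using hi) j (by simpa using hj) hij
    have hm : m ∈ (range (2 * k + 1)).image (φ k) := by
      rw [himg, mem_block]
    obtain ⟨j, hj, hjm⟩ := Finset.mem_image.1 hm
    rw [mem_range] at hj
    have hsq : Nat.sqrt (k ^ 2 + j) = k := by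
      have : k ^ 2 + j ∈ block k := by
        rw [block_eq_Ico, Finset.mem_Ico]
        have h4 : (k + 1) ^ 2 = k ^ 2 + (2 * k + 1) := by ring
        omega
      exact mem_block.1 this
    refine ⟨k ^ 2 + j, ?_⟩
    simp only [σ0, hsq, Nat.add_sub_cancel_left]
    exact hjm
  let σ : Equiv.Perm ℕ := Equiv.ofBijective σ0 ⟨hinj, hsurj⟩
  have hσ : ∀ n, σ n = σ0 n := fun n => rfl
  refine ⟨σ, ?_⟩
  let S : ℕ → EE 𝕜 := fun k => ∑ n ∈ range (k ^ 2), ff 𝕜 n v • xx 𝕜 n
  have hS : Tendsto S atTop (𝓝 v) := tendsto_squares 𝕜 v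
  have hbound : ∀ N, ‖(∑ i ∈ range N, ff 𝕜 (σ i) v • xx 𝕜 (σ i)) - v‖ ≤
      4 * ‖S (Nat.sqrt N) - v‖ := by
    intro N
    set k := Nat.sqrt N with hk
    set j := N - k ^ 2 with hj
    have hNk : N = k ^ 2 + j := by
      have : k ^ 2 ≤ N := Nat.sqrt_le' N
      omega
    have hj1 : j ≤ 2 * k + 1 := (hidx N).le
    have hsplit : ∑ i ∈ range N, ff 𝕜 (σ i) v • xx 𝕜 (σ i) =
        S k + ∑ n ∈ (range j).image (φ k), ff 𝕜 n v • xx 𝕜 n := by
      rw [hNk, Finset.sum_range_add]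
      congr 1
      · exact Finset.sum_equiv σ (fun n => sqrt_perm_mem hσ0 k n) (fun n _ => rfl)
      · rw [Finset.sum_image]
        · apply Finset.sum_congr rfl
          intro i hi
          have hi' : i < j := mem_range.1 hi
          have hsq : Nat.sqrt (k ^ 2 + i) = k := by
            have : k ^ 2 + i ∈ block k := by
              rw [block_eq_Ico, Finset.mem_Ico]
              have h4 : (k + 1) ^ 2 = k ^ 2 + (2 * k + 1) := by ring
              omega
            exact mem_block.1 this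
          have : σ (k ^ 2 + i) = φ k i := by
            rw [hσ]
            simp only [σ0, hsq, Nat.add_sub_cancel_left]
          rw [this]
        · intro a ha b hb hab
          have ha' : a < j := by simpa using ha
          have hb' : b < j := by simpa using hb
          exact h2 k a (by omega) b (by omega) hab
    set A : Finset ℕ := (range j).image (φ k) with hA
    have hAsub : A ⊆ block k := by
      intro n hn
      obtain ⟨i, hi, rfl⟩ := Finset.mem_image.1 hn
      exact h1 k i (by have := mem_range.1 hi; omega)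
    set T : 𝕜 := ∑ n ∈ block k, ff 𝕜 n v with hT
    set q : ℝ := ∑ n ∈ block k, ‖ff 𝕜 n v‖ ^ 2 + ‖T‖ ^ 2 with hq
    have hq0 : 0 ≤ q := add_nonneg (Finset.sum_nonneg fun _ _ => sq_nonneg _) (sq_nonneg _)
    have hAsum : ∑ n ∈ A, ff 𝕜 n v = ∑ i ∈ range j, ff 𝕜 (φ k i) v := by
      rw [hA, Finset.sum_image]
      intro a ha b hb hab
      have ha' : a < j := by simpa using ha
      have hb' : b < j := by simpa using hb
      exact h2 k a (by omega) b (by omega) hab
    have hTq : ‖T‖ ≤ √q := by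
      apply Real.le_sqrt_of_sq_le
      have : 0 ≤ ∑ n ∈ block k, ‖ff 𝕜 n v‖ ^ 2 := Finset.sum_nonneg fun _ _ => sq_nonneg _
      rw [hq]
      linarith
    have hpq : ‖∑ n ∈ A, ff 𝕜 n v‖ ≤ 2 * √q := by
      have h5 := h3 k j hj1
      rw [← hAsum, norm_neg] at h5
      have h6 : ‖-T + ∑ n ∈ A, ff 𝕜 n v‖ ≤ √q := by
        apply Real.le_sqrt_of_sq_le
        rw [hq]
        linarith
      calc ‖∑ n ∈ A, ff 𝕜 n v‖ = ‖T + (-T + ∑ n ∈ A, ff 𝕜 n v)‖ := by
            congr 1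
            ring
        _ ≤ ‖T‖ + ‖-T + ∑ n ∈ A, ff 𝕜 n v‖ := norm_add_le _ _
        _ ≤ 2 * √q := by linarith
    have hrest : ‖∑ n ∈ A, ff 𝕜 n v • xx 𝕜 n‖ ≤ 3 * √q := by
      have h5 := norm_sum_block_le 𝕜 (fun n => ff 𝕜 n v) hAsub
      have h6 : √(∑ n ∈ A, ‖ff 𝕜 n v‖ ^ 2) ≤ √q := by
        apply Real.sqrt_le_sqrt
        have h7 : ∑ n ∈ A, ‖ff 𝕜 n v‖ ^ 2 ≤ ∑ n ∈ block k, ‖ff 𝕜 n v‖ ^ 2 :=
          Finset.sum_le_sum_of_subset_of_nonneg hAsub fun _ _ _ => sq_nonneg _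
        have h8 : 0 ≤ ‖T‖ ^ 2 := sq_nonneg _
        rw [hq]
        linarith
      linarith
    have hqv : √q ≤ ‖S k - v‖ := by
      rw [norm_sub_rev]
      apply Real.sqrt_le_iff.2
      refine ⟨norm_nonneg _, ?_⟩
      have hcoord : ∀ n ∈ block k, ((v - S k : EE 𝕜) : H 𝕜) (Sum.inl n) = ff 𝕜 n v := by
        intro n hn
        rw [← ff_apply, map_sub]
        have : ff 𝕜 n (S k) = 0 := by
          simp only [S, map_sum, map_smul, ff_xx]
          apply Finset.sum_eq_zero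
          intro m hm
          have hne : n ≠ m := by
            rintro rfl
            rw [block_eq_Ico, Finset.mem_Ico] at hn
            rw [mem_range] at hm
            omega
          rw [if_neg hne, smul_zero]
        rw [this, sub_zero]
      have hcoord2 : ((v - S k : EE 𝕜) : H 𝕜) (Sum.inr k) = T := by
        rw [(v - S k).2 k, hT]
        exact Finset.sum_congr rfl hcoord
      have h5 := lp.sum_rpow_le_norm_rpow (E := fun _ : ℕ ⊕ ℕ => 𝕜) (p := 2) (by norm_num)
        ((v - S k : EE 𝕜) : H 𝕜) ((block k).disjSum {k})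
      simp only [ENNReal.toReal_ofNat, Real.rpow_ofNat] at h5
      rw [Finset.sum_disjSum, Finset.sum_singleton, hcoord2] at h5
      have h6 : ∑ n ∈ block k, ‖((v - S k : EE 𝕜) : H 𝕜) (Sum.inl n)‖ ^ 2 =
          ∑ n ∈ block k, ‖ff 𝕜 n v‖ ^ 2 :=
        Finset.sum_congr rfl fun n hn => by rw [hcoord n hn]
      rw [h6] at h5
      exact h5
    rw [hsplit]
    calc ‖S k + ∑ n ∈ A, ff 𝕜 n v • xx 𝕜 n - v‖
        = ‖(S k - v) + ∑ n ∈ A, ff 𝕜 n v • xx 𝕜 n‖ := by
          congr 1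
          abel
      _ ≤ ‖S k - v‖ + ‖∑ n ∈ A, ff 𝕜 n v • xx 𝕜 n‖ := norm_add_le _ _
      _ ≤ 4 * ‖S k - v‖ := by linarith
  rw [tendsto_iff_norm_sub_tendsto_zero]
  have hsq : Tendsto Nat.sqrt atTop atTop := by
    rw [tendsto_atTop_atTop]
    intro b
    refine ⟨b ^ 2, fun a ha => Nat.le_sqrt'.2 ha⟩
  have h5 : Tendsto (fun N => 4 * ‖S (Nat.sqrt N) - v‖) atTop (𝓝 0) := by
    have h6 := (tendsto_iff_norm_sub_tendsto_zero.1 hS).comp hsq
    simpa using h6.const_mul 4
  exact squeeze_zero (fun N => norm_nonneg _) hbound h5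

/-- No permutation is a basis. -/
theorem not_basis (τ : Equiv.Perm ℕ) : ¬ IsSchauderBasis 𝕜 (fun n => xx 𝕜 (τ n)) := by
  classical
  intro hb
  have : CompleteSpace (EE 𝕜) := (isClosed_EE 𝕜).completeSpace_coe
  obtain ⟨C, hC⟩ := basis_bound (ff_xx 𝕜) τ hb
  obtain ⟨k, hk⟩ := exists_nat_gt (2 * C ^ 2)
  have hk0 : 0 < k := by
    rcases Nat.eq_zero_or_pos k with rfl | h
    · exfalso
      simp only [Nat.cast_zero] at hk
      nlinarith [sq_nonneg C]
    · exact h
  let cnt : ℕ → ℕ := fun N => ((range N).filter (fun i => τ i ∈ block k)).card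
  have hex : ∃ N, k ≤ cnt N := by
    obtain ⟨N, hN⟩ : ∃ N, ∀ n ∈ block k, τ.symm n < N := by
      refine ⟨(block k).sup (fun n => τ.symm n) + 1, fun n hn => ?_⟩
      exact Nat.lt_succ_of_le (Finset.le_sup (f := fun n => τ.symm n) hn)
    refine ⟨N, ?_⟩
    have h1 : (block k).card ≤ cnt N := by
      apply Finset.card_le_card_of_injOn (fun n => τ.symm n)
      · intro n hn
        have hn' : n ∈ block k := hn
        simp only [Finset.coe_filter, Set.mem_ofPred_eq, mem_range, Equiv.apply_symm_apply]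
        exact ⟨hN n hn', hn'⟩
      · intro a _ b _ hab
        exact τ.symm.injective hab
    rw [card_block] at h1
    omega
  set N := Nat.find hex with hNdef
  have hN1 : k ≤ cnt N := Nat.find_spec hex
  have hN2 : cnt N = k := by
    apply le_antisymm _ hN1
    rcases Nat.eq_zero_or_pos N with h0 | h0
    · rw [h0]
      simp [cnt]
    · obtain ⟨M, hM⟩ : ∃ M, N = M + 1 := ⟨N - 1, by omega⟩
      have h1 : cnt M < k := by
        by_contra hcon
        have := Nat.find_min' hex (not_lt.1 hcon)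
        omega
      have h2 : cnt (M + 1) ≤ cnt M + 1 := by
        simp only [cnt]
        rw [Finset.range_add_one, Finset.filter_insert]
        split_ifs
        · exact Finset.card_insert_le _ _
        · omega
      rw [hM]
      omega
  let A : Finset ℕ := ((range N).filter (fun i => τ i ∈ block k)).image τ
  have hAcard : A.card = k := by
    simp only [A]
    rw [Finset.card_image_of_injective _ τ.injective]
    exact hN2
  have hAsub : A ⊆ block k := by
    intro n hn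
    obtain ⟨i, hi, rfl⟩ := Finset.mem_image.1 hn
    exact (mem_filter.1 hi).2
  obtain ⟨B, hB1, hB2⟩ : ∃ B ⊆ block k \ A, B.card = k := by
    apply Finset.exists_subset_card_eq
    rw [Finset.card_sdiff_of_subset hAsub, card_block, hAcard]
    omega
  have hBsub : B ⊆ block k := hB1.trans Finset.sdiff_subset
  have hdisj : Disjoint A B := by
    rw [Finset.disjoint_left]
    intro n hnA hnB
    exact (mem_sdiff.1 (hB1 hnB)).2 hnA
  let c : ℕ → 𝕜 := fun n => (if n ∈ A then 1 else 0) - (if n ∈ B then 1 else 0)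
  let v : EE 𝕜 := ∑ n ∈ block k, c n • xx 𝕜 n
  have hcsum : ∑ n ∈ block k, c n = 0 := by
    simp only [c]
    rw [Finset.sum_sub_distrib, Finset.sum_ite_mem, Finset.sum_ite_mem,
      Finset.inter_eq_right.2 hAsub, Finset.inter_eq_right.2 hBsub]
    simp [hAcard, hB2]
  have hcsq : ∑ n ∈ block k, ‖c n‖ ^ 2 = 2 * k := by
    have h1 : ∀ n, ‖c n‖ ^ 2 = (if n ∈ A then (1:ℝ) else 0) + (if n ∈ B then 1 else 0) := by
      intro n
      simp only [c]
      by_cases hA : n ∈ A
      · have hB : n ∉ B := Finset.disjoint_left.1 hdisj hA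
        simp [hA, hB]
      · by_cases hB : n ∈ B
        · simp [hA, hB]
        · simp [hA, hB]
    simp only [h1]
    rw [Finset.sum_add_distrib, Finset.sum_ite_mem, Finset.sum_ite_mem,
      Finset.inter_eq_right.2 hAsub, Finset.inter_eq_right.2 hBsub]
    simp [hAcard, hB2]
    ring
  have hvnorm : ‖v‖ ^ 2 = 2 * k := by
    have h0 : ‖v‖ = ‖((∑ n ∈ block k, c n • xx 𝕜 n : EE 𝕜) : H 𝕜)‖ := rfl
    rw [h0, coe_sum_block 𝕜 c (Finset.Subset.refl _), hcsum, zero_smul, add_zero,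
      norm_sum_inl_sq, hcsq]
  have hffv : ∀ m, ff 𝕜 m v = if m ∈ block k then c m else 0 := by
    intro m
    simp only [v, map_sum, map_smul, ff_xx, smul_eq_mul, mul_ite, mul_one, mul_zero]
    rw [Finset.sum_ite_eq]
  have hcoord : ev 𝕜 (Sum.inr k) ((∑ i ∈ range N, ff 𝕜 (τ i) v • xx 𝕜 (τ i) : EE 𝕜) : H 𝕜) =
      (k : 𝕜) := by
    rw [Submodule.coe_sum, map_sum]
    have h1 : ∀ i ∈ range N, ev 𝕜 (Sum.inr k) ((ff 𝕜 (τ i) v • xx 𝕜 (τ i) : EE 𝕜) : H 𝕜) =
        if τ i ∈ block k then 1 else 0 := by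
      intro i hi
      rw [Submodule.coe_smul, map_smul, coe_xx, map_add, ev_apply, ev_apply, uu_apply, uu_apply,
        hffv]
      by_cases hik : τ i ∈ block k
      · have hiA : τ i ∈ A := Finset.mem_image.2 ⟨i, mem_filter.2 ⟨hi, hik⟩, rfl⟩
        have hiB : τ i ∉ B := Finset.disjoint_left.1 hdisj hiA
        have hs := mem_block.1 hik
        simp [c, hik, hiA, hiB, hs]
      · simp [hik]
    rw [Finset.sum_congr rfl h1, Finset.sum_boole]
    congr 1
  have h1 : (k : ℝ) ≤ C * ‖v‖ := by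
    have h2 : ‖ev 𝕜 (Sum.inr k) ((∑ i ∈ range N, ff 𝕜 (τ i) v • xx 𝕜 (τ i) : EE 𝕜) : H 𝕜)‖ ≤
        ‖∑ i ∈ range N, ff 𝕜 (τ i) v • xx 𝕜 (τ i)‖ := by
      rw [ev_apply]
      exact lp.norm_apply_le_norm (by norm_num) _ _
    rw [hcoord, RCLike.norm_natCast] at h2
    exact h2.trans (hC N v)
  have h2 : (k : ℝ) ^ 2 ≤ C ^ 2 * (2 * k) := by
    rw [← hvnorm, ← mul_pow]
    exact pow_le_pow_left₀ (Nat.cast_nonneg k) h1 2
  have hkr : (0 : ℝ) < k := Nat.cast_pos.2 hk0
  nlinarith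

end Space

/-- For real or complex scalars there are a separable Hilbert space `E` and a minimal sequence
`x` in `E` with property (U) such that no permutation of `x` is a Schauder basis of `E`. -/
theorem result (𝕜 : Type) [RCLike 𝕜] :
    ∃ (E : Type) (_ : NormedAddCommGroup E) (_ : InnerProductSpace 𝕜 E),
      CompleteSpace E ∧ TopologicalSpace.SeparableSpace E ∧
      ∃ x : ℕ → E, IsMinimalSeq 𝕜 x ∧ HasPropertyU 𝕜 x ∧
        ∀ τ : Equiv.Perm ℕ, ¬ IsSchauderBasis 𝕜 (fun n => x (τ n)) := by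
  refine ⟨EE 𝕜, inferInstance, inferInstance, (isClosed_EE 𝕜).completeSpace_coe, ?_,
    xx 𝕜, minimal_of_biorth (ff_xx 𝕜), fun v => ?_, not_basis 𝕜⟩
  · -- separability: the span of the sequence is dense
    have hdense : (Submodule.span 𝕜 (Set.range (xx 𝕜))).topologicalClosure = ⊤ := by
      rw [eq_top_iff]
      intro v _
      obtain ⟨σ, hσ⟩ := exists_perm 𝕜 v
      apply mem_closure_of_tendsto hσ
      exact Filter.Eventually.of_forall fun N => Submodule.sum_mem _ fun i _ =>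
        Submodule.smul_mem _ _ (Submodule.subset_span ⟨_, rfl⟩)
    have h1 : TopologicalSpace.IsSeparable
        ((Submodule.span 𝕜 (Set.range (xx 𝕜)) : Submodule 𝕜 (EE 𝕜)) : Set (EE 𝕜)) :=
      (Set.countable_range _).isSeparable.span
    have h2 := h1.closure
    rw [← Submodule.topologicalClosure_coe, hdense, Submodule.top_coe] at h2
    exact TopologicalSpace.isSeparable_univ_iff.1 h2
  · refine ⟨fun n => ff 𝕜 n v, exists_perm 𝕜 v, fun b π hb => ?_⟩
    funext n
    exact coef_eq (ff_xx 𝕜) b π hb n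

end Pool.Agent.Results.MP_514f39_an.PermutedExpansions
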